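import Pool.Agent.H68.QT.Targets
import Pool.Agent.H68.QC.A0D
import Pool.Agent.H60.RC.LOC

/-!
# A tower whose oracle is computed by adaptive questions of level `0`
-/

set_option autoImplicit false

namespace Pool.Agent.H46.QT

open Pool.Agent.H68.QT Pool.Agent.H68.QC Pool.Agent.H70.OQ Pool.Agent.H70.RK Pool.Agent.H6.NB Finset

/-- the dummy algorithm -/
noncomputable def nulA : QAlg where
  basis := Unit
  query := fun _ => none
  T := 0
  U := fun _ => 1
  unitary := fun _ => one_mem _
  init := fun _ => 1
  norm_init := by simp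
  acc := ∅

theorem nulA_prob (O : List Bool → Bool) : nulA.prob O = 0 := by
  unfold QAlg.prob nulA
  simp

theorem nulA_short (m : ℕ) : nulA.Short m := by
  intro i w h
  exact absurd h (by simp [nulA])

/-- the algorithm depends only on the answers to short queries -/
theorem prob_loc (Q : QAlg) (m : ℕ) (g g' : List Bool → Bool) (hS : Q.Short m)
    (h : ∀ w : List Bool, w.length ≤ m → g w = g' w) : Q.prob g = Q.prob g' :=
  (Pool.Agent.H60.RC.pf_LOC Q).2 m g g' hS h

/-- accepting and rejecting exclude each other -/
theorem tval_excl (m : ℕ) : ∀ (j : ℕ) (M : Tow j) (O : List Bool → Bool),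
    TVal m j M O true → TVal m j M O false → False
  | 0, A, O, h1, h0 => by
    simp only [TVal, if_true] at h1
    simp only [TVal] at h0
    have h0' : QAlg.prob A O ≤ 1 / 3 := by simpa using h0
    linarith
  | j + 1, (A, sub), O, h1, h0 => by
    classical
    let g : List Bool → Bool := fun w => match w with
      | false :: w => O w
      | true :: w => decide (∃ v : List Bool, v.length ≤ m ∧ TVal m j (sub w v) O true)
      | [] => false
    have a1 : ∀ w, g (false :: w) = O w := fun w => rfl
    have a2 : ∀ w, (∃ v : List Bool, v.length ≤ m ∧ TVal m j (sub w v) O true) →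
        g (true :: w) = true := fun w hw => decide_eq_true hw
    have a3 : ∀ w, (∀ v : List Bool, v.length ≤ m → TVal m j (sub w v) O false) →
        g (true :: w) = false := by
      intro w hw
      refine decide_eq_false ?_
      rintro ⟨v, hv, hv1⟩
      exact tval_excl m j (sub w v) O hv1 (hw v hv)
    have b1 := h1 g a1 a2 a3
    have b0 := h0 g a1 a2 a3
    simp only [if_true] at b1
    have b0' : A.prob g ≤ 1 / 3 := by simpa using b0
    linarith

/-- the pair (false, true) is a tower -/
theorem twc_false (V : Type) (m : ℕ) (T : ℝ) (t : ℕ) (hT : 0 ≤ T) : ∀ j : ℕ,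
    TwC V m T t j (fun _ => False) (fun _ => True)
  | 0 => by
    refine ⟨nulA, fun _ => .leaf false, nulA_short _, ?_, fun w => Nat.zero_le _, fun y => ?_,
      fun y => ?_⟩
    · show ((0 : ℕ) : ℝ) ≤ T
      simpa using hT
    · rw [nulA_prob]
      norm_num
    · rw [nulA_prob]
      norm_num
  | j + 1 => by
    refine ⟨nulA, fun _ => .leaf false, fun _ _ => False, fun _ _ => True, nulA_short _, ?_,
      fun w => Nat.zero_le _, fun w _ => ?_, fun y => ?_, fun y => ?_⟩
    · show ((0 : ℕ) : ℝ) ≤ T
      simpa using hT
    · refine ⟨fun _ _ => False, fun _ _ => True, fun v _ => twc_false V m T t hT j, fun y => ?_,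
        fun y => ?_⟩
      · simp
      · simp
    · refine ⟨fun h => h.elim, fun h => ?_⟩
      have := h (fun _ => false) (fun w _ => ⟨rfl, fun h => h.elim, fun _ => rfl⟩)
      rw [nulA_prob] at this
      norm_num at this
    · refine ⟨fun _ g _ => ?_, fun _ => trivial⟩
      rw [nulA_prob]
      norm_num

theorem tsm_nonneg (m : ℕ) (T : ℝ) : ∀ (j : ℕ) (M : Tow j), TSm m T j M → 0 ≤ T
  | 0, _, h => le_trans (Nat.cast_nonneg _) h.2
  | _ + 1, (_, _), h => le_trans (Nat.cast_nonneg _) h.2.1

/-- the tower is implied by a tower over trees -/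
theorem tower_red (V : Type) (mw m t : ℕ) (T : ℝ) (hm : mw ≤ m)
    (tr : List Bool → Pool.Agent.H68.AC.DT V) (htr : ∀ w, (tr w).depth ≤ t) :
    ∀ (j : ℕ) (M : Tow j), TSm mw T j M → ∃ V1' V0' : (V → Bool) → Prop,
      TwC V m T t j V1' V0' ∧ ∀ y, (TVal mw j M (fun w => (tr w).eval y) true → V1' y) ∧
        (TVal mw j M (fun w => (tr w).eval y) false → V0' y)
  | 0, A, h => by
    refine ⟨_, _, ⟨A, tr, fun i w hw => ((h.1 i w hw).trans hm).trans (Nat.le_succ m), h.2, htr,
      fun y => Iff.rfl, fun y => Iff.rfl⟩, fun y => ⟨fun h1 => ?_, fun h0 => ?_⟩⟩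
    · simpa [TVal] using h1
    · simpa [TVal] using h0
  | j + 1, (A, sub), h => by
    classical
    have hT : 0 ≤ T := tsm_nonneg mw T (j + 1) (A, sub) h
    have ih : ∀ w v : List Bool, ∃ V1' V0' : (V → Bool) → Prop, TwC V m T t j V1' V0' ∧
        ((w.length ≤ mw → v.length ≤ mw → ∀ y,
          (TVal mw j (sub w v) (fun w => (tr w).eval y) true → V1' y) ∧
          (TVal mw j (sub w v) (fun w => (tr w).eval y) false → V0' y)) ∧
        (¬ (w.length ≤ mw ∧ v.length ≤ mw) → ∀ y, V0' y)) := by
      intro w v
      by_cases hc : w.length ≤ mw ∧ v.length ≤ mw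
      · obtain ⟨V1', V0', hC, hy⟩ := tower_red V mw m t T hm tr htr j (sub w v) (h.2.2 w v hc.1 hc.2)
        exact ⟨V1', V0', hC, fun _ _ => hy, fun hn => absurd hc hn⟩
      · exact ⟨fun _ => False, fun _ => True, twc_false V m T t hT j,
          fun h1 h2 => absurd ⟨h1, h2⟩ hc, fun _ _ => trivial⟩
    choose p1 p0 hC hi hn using ih
    refine ⟨_, _, ⟨A, tr, fun w y => ∃ v : List Bool, v.length ≤ m ∧ p1 w v y,
      fun w y => ∀ v : List Bool, v.length ≤ m → p0 w v y,
      fun i w hw => (h.1 i w hw).trans (Nat.succ_le_succ hm), h.2.1, htr,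
      fun w _ => ⟨p1 w, p0 w, fun v _ => hC w v, fun y => Iff.rfl, fun y => Iff.rfl⟩,
      fun y => Iff.rfl, fun y => Iff.rfl⟩, fun y => ?_⟩
    -- a compatible answer function
    have key : ∀ g : List Bool → Bool,
        Cmp m tr (fun w y => ∃ v : List Bool, v.length ≤ m ∧ p1 w v y)
          (fun w y => ∀ v : List Bool, v.length ≤ m → p0 w v y) y g →
        ∃ g' : List Bool → Bool, (∀ w, g' (false :: w) = (tr w).eval y) ∧
          (∀ w, (∃ v : List Bool, v.length ≤ mw ∧
            TVal mw j (sub w v) (fun w => (tr w).eval y) true) → g' (true :: w) = true) ∧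
          (∀ w, (∀ v : List Bool, v.length ≤ mw →
            TVal mw j (sub w v) (fun w => (tr w).eval y) false) → g' (true :: w) = false) ∧
          A.prob g = A.prob g' := by
      intro g hg
      let g' : List Bool → Bool := fun u => match u with
        | false :: w => (tr w).eval y
        | true :: w => if w.length ≤ mw then g (true :: w) else
            decide (∃ v : List Bool, v.length ≤ mw ∧
              TVal mw j (sub w v) (fun w => (tr w).eval y) true)
        | [] => g []
      refine ⟨g', fun w => rfl, fun w hw => ?_, fun w hw => ?_, ?_⟩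
      · by_cases hl : w.length ≤ mw
        · have e : g' (true :: w) = g (true :: w) := if_pos hl
          rw [e]
          obtain ⟨v, hv, hv1⟩ := hw
          exact (hg w (hl.trans hm)).2.1 ⟨v, hv.trans hm, (hi w v hl hv y).1 hv1⟩
        · have e : g' (true :: w) = decide (∃ v : List Bool, v.length ≤ mw ∧
              TVal mw j (sub w v) (fun w => (tr w).eval y) true) := if_neg hl
          rw [e]
          exact decide_eq_true hw
      · by_cases hl : w.length ≤ mw
        · have e : g' (true :: w) = g (true :: w) := if_pos hl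
          rw [e]
          refine (hg w (hl.trans hm)).2.2 fun v _ => ?_
          by_cases hv : v.length ≤ mw
          · exact (hi w v hl hv y).2 (hw v hv)
          · exact hn w v (fun hc => hv hc.2) y
        · have e : g' (true :: w) = decide (∃ v : List Bool, v.length ≤ mw ∧
              TVal mw j (sub w v) (fun w => (tr w).eval y) true) := if_neg hl
          rw [e]
          refine decide_eq_false ?_
          rintro ⟨v, hv, hv1⟩
          exact tval_excl mw j _ _ hv1 (hw v hv)
      · refine prob_loc A (mw + 1) g g' h.1 fun u hu => ?_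
        match u, hu with
        | [], _ => rfl
        | false :: w, hu =>
          have hl : w.length ≤ mw := by simpa using hu
          exact (hg w (hl.trans hm)).1
        | true :: w, hu =>
          have hl : w.length ≤ mw := by simpa using hu
          exact (if_pos hl).symm
    refine ⟨fun h1 g hg => ?_, fun h0 g hg => ?_⟩
    · obtain ⟨g', k1, k2, k3, k4⟩ := key g hg
      rw [k4]
      simpa using h1 g' k1 k2 k3
    · obtain ⟨g', k1, k2, k3, k4⟩ := key g hg
      rw [k4]
      simpa using h0 g' k1 k2 k3

theorem pf_TWF : T_TWF := by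
  intro V mw m j t T M V1 V0 hm hM hF
  obtain ⟨e, he, h1, h0⟩ := hF
  choose tr htr hev using fun w => Pool.Agent.H68.QCX.pf_A0D V t t (e w) (he w)
  obtain ⟨V1', V0', hC, hy⟩ := tower_red V mw m t T hm tr htr j M hM
  refine ⟨V1', V0', hC, fun y _ => ?_⟩
  have ee : (fun w => e w y) = fun w => (tr w).eval y := by
    funext w
    exact (hev w y).symm
  refine ⟨fun h => ?_, fun h => ?_⟩
  · have := (h1 y).1 h
    rw [ee] at this
    exact (hy y).1 this
  · have := (h0 y).1 h
    rw [ee] at this
    exact (hy y).2 this

end Pool.Agent.H46.QT
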